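import Pool.Agent.Helper34.OrthGroup

/-!
# Haar measure on the orthogonal group: matrix coefficients and invariance
-/

set_option autoImplicit false

namespace Pool.Agent.Helper17.Sph

open MeasureTheory Matrix Helper34.TraceClass
open scoped BigOperators

variable {N : ℕ}

/-- The Haar probability on `O(N)`. -/
noncomputable abbrev hO (N : ℕ) : Measure (OG (Fin N)) := hp (OG (Fin N))

/-- The matrix coefficient `⟨a, Q b⟩`. -/
def X (a b : Fin N → ℝ) (Q : OG (Fin N)) : ℝ := a ⬝ᵥ (Q.mat *ᵥ b)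

theorem continuous_X (a b : Fin N → ℝ) : Continuous (X a b) := by
  unfold X
  have h := (OG.continuous_mat (Λ := Fin N))
  simp only [dotProduct, Matrix.mulVec]
  refine continuous_finsetSum _ fun i _ => ?_
  refine continuous_const.mul ?_
  refine continuous_finsetSum _ fun j _ => ?_
  exact (h.matrix_elem i j).mul continuous_const

theorem X_add (a a' b : Fin N → ℝ) (Q : OG (Fin N)) : X (a + a') b Q = X a b Q + X a' b Q := by
  simp [X, add_dotProduct]

theorem X_smul (r : ℝ) (a b : Fin N → ℝ) (Q : OG (Fin N)) : X (r • a) b Q = r * X a b Q := by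
  simp [X, smul_dotProduct]

theorem X_add' (a b b' : Fin N → ℝ) (Q : OG (Fin N)) : X a (b + b') Q = X a b Q + X a b' Q := by
  simp [X, mulVec_add, dotProduct_add]

theorem X_smul' (r : ℝ) (a b : Fin N → ℝ) (Q : OG (Fin N)) : X a (r • b) Q = r * X a b Q := by
  simp [X, mulVec_smul, dotProduct_smul]

theorem X_inv (a b : Fin N → ℝ) (Q : OG (Fin N)) : X a b Q⁻¹ = X b a Q := by
  have h : (Q⁻¹).mat = Q.mat.transpose := by
    have h1 : (Q⁻¹).mat * Q.mat = 1 := by
      rw [← OG.mat_mul, inv_mul_cancel, OG.mat_one]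
    calc (Q⁻¹).mat = (Q⁻¹).mat * (Q.mat * Q.mat.transpose) := by
          rw [OG.mul_transpose, Matrix.mul_one]
      _ = Q.mat.transpose := by rw [← Matrix.mul_assoc, h1, Matrix.one_mul]
  unfold X
  rw [h, Matrix.mulVec_transpose, dotProduct_comm, ← Matrix.dotProduct_mulVec]

theorem mat_dotProduct (Q : OG (Fin N)) (a b : Fin N → ℝ) :
    (Q.mat *ᵥ a) ⬝ᵥ (Q.mat *ᵥ b) = a ⬝ᵥ b := by
  rw [Matrix.dotProduct_mulVec, Matrix.vecMul_mulVec, OG.transpose_mul, Matrix.vecMul_one]

theorem X_mul_left (O Q : OG (Fin N)) (a b : Fin N → ℝ) :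
    X (O.mat *ᵥ a) b (O * Q) = X a b Q := by
  unfold X
  rw [OG.mat_mul, ← Matrix.mulVec_mulVec, mat_dotProduct]

/-- Integrability of continuous functions. -/
theorem integrable_of_cont {f : OG (Fin N) → ℝ} (hf : Continuous f) : Integrable f (hO N) :=
  hf.integrable_of_hasCompactSupport (HasCompactSupport.of_compactSpace f)

instance : (hO N).IsInvInvariant := by
  constructor
  have h1 : IsProbabilityMeasure (hO N).inv := by
    unfold Measure.inv
    exact Measure.isProbabilityMeasure_map continuous_inv.measurable.aemeasurable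
  have h2 := Measure.isMulInvariant_eq_smul_of_compactSpace (hO N).inv (hO N)
  have h3 : (hO N).inv Set.univ = 1 := measure_univ
  have h4 : (hO N) Set.univ = 1 := measure_univ
  rw [h2, Measure.smul_apply, h4] at h3
  have h5 : Measure.haarScalarFactor (hO N).inv (hO N) = 1 := by
    have h6 : ((Measure.haarScalarFactor (hO N).inv (hO N) : NNReal) : ENNReal) = 1 := by
      simpa [ENNReal.smul_def] using h3
    exact_mod_cast h6
  rw [h2, h5, one_smul]

theorem integral_inv (f : OG (Fin N) → ℝ) :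
    ∫ Q, f Q⁻¹ ∂(hO N) = ∫ Q, f Q ∂(hO N) :=
  integral_inv_eq_self f (hO N)

/-- Symmetry in the two arguments. -/
theorem integral_swap (F : ℝ → ℝ) (a b : Fin N → ℝ) :
    ∫ Q, F (X a b Q) ∂(hO N) = ∫ Q, F (X b a Q) ∂(hO N) := by
  rw [← integral_inv (fun Q => F (X a b Q))]
  simp only [X_inv]

/-- Left invariance. -/
theorem integral_left (F : ℝ → ℝ) (O : OG (Fin N)) (a b : Fin N → ℝ) :
    ∫ Q, F (X (O.mat *ᵥ a) b Q) ∂(hO N) = ∫ Q, F (X a b Q) ∂(hO N) := by
  rw [← integral_mul_left_eq_self (fun Q => F (X (O.mat *ᵥ a) b Q)) O]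
  simp only [X_mul_left]

/-- Householder reflections: the orthogonal group is transitive on the unit sphere. -/
theorem exists_OG (u v : Fin N → ℝ) (hu : u ⬝ᵥ u = 1) (hv : v ⬝ᵥ v = 1) :
    ∃ O : OG (Fin N), O.mat *ᵥ u = v := by
  classical
  by_cases huv : u = v
  · exact ⟨1, by rw [OG.mat_one, Matrix.one_mulVec, huv]⟩
  set w := u - v with hw
  have hw0 : w ⬝ᵥ w ≠ 0 := by
    intro h
    exact huv (sub_eq_zero.mp (dotProduct_self_eq_zero.mp h))
  have hwu : w ⬝ᵥ u = (w ⬝ᵥ w) / 2 := by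
    rw [hw]
    simp only [sub_dotProduct, dotProduct_sub, hu, hv, dotProduct_comm v u]
    ring
  set c := 2 / (w ⬝ᵥ w) with hc
  have hcw : c * (w ⬝ᵥ w) = 2 := by rw [hc]; field_simp
  set H : Matrix (Fin N) (Fin N) ℝ := 1 - c • vecMulVec w w with hH
  have hHT : H.transpose = H := by
    rw [hH, Matrix.transpose_sub, Matrix.transpose_one, Matrix.transpose_smul,
      Matrix.transpose_vecMulVec]
  have hVV : vecMulVec w w * vecMulVec w w = (w ⬝ᵥ w) • vecMulVec w w := by
    rw [Matrix.vecMulVec_mul_vecMulVec]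
    ext i j
    simp [vecMulVec_apply]
    ring
  have hHH : H * H.transpose = 1 := by
    rw [hHT, hH, Matrix.sub_mul, Matrix.mul_sub, Matrix.one_mul, Matrix.mul_sub, Matrix.mul_one,
      Matrix.one_mul, Matrix.smul_mul, Matrix.mul_smul, hVV]
    ext i j
    simp only [Matrix.sub_apply, Matrix.smul_apply, smul_eq_mul]
    linear_combination (c * vecMulVec w w i j) * hcw
  refine ⟨OG.mk' H hHH, ?_⟩
  rw [OG.mk'_mat, hH, Matrix.sub_mulVec, Matrix.one_mulVec, Matrix.smul_mulVec,
    Matrix.vecMulVec_mulVec]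
  ext i
  simp only [Pi.sub_apply, Pi.smul_apply, smul_eq_mul, MulOpposite.smul_eq_mul_unop,
    MulOpposite.unop_op]
  rw [hwu]
  have h1 : w i = u i - v i := rfl
  linear_combination (-(w i) / 2) * hcw - h1

end Pool.Agent.Helper17.Sph
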